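import Pool.Agent.W_7d29a1_XN.Det

/-!
MP_7d29a1_pr, STORM X, section (NL), deterministic part (3): the mixed difference is very negative.
-/

namespace Pool.Agent.W_7d29a1_XN

open MeasureTheory Pool.Agent.W_7d29a1_F

variable {μ : Measure ℝ} {s : ℝ}

/-- The mixed difference from the bound on the paths which touch both sets. -/
theorem delta_le {f00 f10 f01 f11 b k : ℝ} (h11 : Real.exp f11 ≤ Real.exp f01 + Real.exp f10 + b)
    (hb : b ≤ Real.exp (f10 + f01 - f00 - k)) (h10 : f00 + k ≤ f10) (h01 : f00 + k ≤ f01) :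
    f11 - f10 - f01 + f00 ≤ Real.log 3 - k := by
  have h1 : Real.exp (f11 - f10 - f01 + f00) ≤ 3 * Real.exp (-k) := by
    have e1 : Real.exp (f11 - f10 - f01 + f00) = Real.exp f11 * Real.exp (f00 - f10 - f01) := by
      rw [← Real.exp_add]
      congr 1
      ring
    have e2 : Real.exp f01 * Real.exp (f00 - f10 - f01) ≤ Real.exp (-k) := by
      rw [← Real.exp_add]
      exact Real.exp_le_exp.2 (by linarith)
    have e3 : Real.exp f10 * Real.exp (f00 - f10 - f01) ≤ Real.exp (-k) := by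
      rw [← Real.exp_add]
      exact Real.exp_le_exp.2 (by linarith)
    have e4 : b * Real.exp (f00 - f10 - f01) ≤ Real.exp (-k) := by
      refine (mul_le_mul_of_nonneg_right hb (Real.exp_pos _).le).trans ?_
      rw [← Real.exp_add]
      exact Real.exp_le_exp.2 (by linarith)
    have e5 := mul_le_mul_of_nonneg_right h11 (Real.exp_pos (f00 - f10 - f01)).le
    rw [e1]
    linarith
  have h2 : f11 - f10 - f01 + f00 ≤ Real.log (3 * Real.exp (-k)) := by
    rw [← Real.log_exp (f11 - f10 - f01 + f00)]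
    exact Real.log_le_log (Real.exp_pos _) h1
  rw [Real.log_mul (by norm_num) (Real.exp_ne_zero _), Real.log_exp] at h2
  linarith

/-- `WS` over the level is `exp V`. -/
theorem WS_eq_exp_V [IsProbabilityMeasure μ] (g : Env) (a : Pt) (N : ℕ) :
    WS μ s g a N (Finset.Icc (0 : ℤ) N) = Real.exp (V μ s g a N) := by
  have hpos : 0 < WS μ s g a N (Finset.Icc (0 : ℤ) N) := by
    unfold WS
    exact Finset.sum_pos (fun y hy => W_pos g a (Finset.mem_Icc.1 hy).1 (Finset.mem_Icc.1 hy).2)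
      ⟨0, Finset.mem_Icc.2 ⟨le_rfl, by positivity⟩⟩
  unfold V
  rw [Real.exp_log hpos]

/-- THE DETERMINISTIC PART OF (NL), first form: `both` is any upper bound of the double sum over the last touch of `A` and
the first touch of `B`. -/
theorem nl_det [IsProbabilityMeasure μ] (A B : Finset Pt) (r : ℤ) (g00 g10 g01 g11 : Env) (N : ℕ) {k : ℝ}
    (hA : ∀ p ∈ A, 0 < p.1 ∧ p.1 < r) (hB : ∀ q ∈ B, r ≤ q.1)
    (h10 : ∀ p, p ∉ B → g11 p = g10 p) (h01 : ∀ p, p ∉ A → g11 p = g01 p)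
    (hboth : ∑ p ∈ A, ∑ q ∈ B, ww μ s Set.univ g10 0 p * ww μ s (((A : Set Pt) ∪ B)ᶜ ∪ {q}) g11 p q *
        ∑ y ∈ Finset.Icc (0 : ℤ) N, ww μ s Set.univ g01 q ((N : ℤ), y) ≤
      Real.exp (V μ s g10 0 N + V μ s g01 0 N - V μ s g00 0 N - k))
    (l10 : V μ s g00 0 N + k ≤ V μ s g10 0 N) (l01 : V μ s g00 0 N + k ≤ V μ s g01 0 N) :
    V μ s g11 0 N - V μ s g10 0 N - V μ s g01 0 N + V μ s g00 0 N ≤ Real.log 3 - k := by
  have h := split_V (μ := μ) (s := s) A B r g10 g01 g11 N hA hB h10 h01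
  rw [WS_eq_exp_V, WS_eq_exp_V, WS_eq_exp_V] at h
  exact delta_le h hboth l10 l01

/-- THE DETERMINISTIC PART OF (NL), second form: uniform lower bounds of the connections with the outside, uniform upper
bound of the crossing. -/
theorem nl_det2 [IsProbabilityMeasure μ] (A B : Finset Pt) (r : ℤ) (g00 g10 g01 g11 : Env) (N : ℕ) {k P Q R : ℝ}
    (hA : ∀ p ∈ A, 0 < p.1 ∧ p.1 < r) (hB : ∀ q ∈ B, r ≤ q.1)
    (h10 : ∀ p, p ∉ B → g11 p = g10 p) (h01 : ∀ p, p ∉ A → g11 p = g01 p)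
    (hP : ∀ p ∈ A, Real.exp P ≤ ∑ y ∈ Finset.Icc (0 : ℤ) N, ww μ s Set.univ g10 p ((N : ℤ), y))
    (hQ : ∀ q ∈ B, Real.exp Q ≤ ww μ s Set.univ g01 0 q)
    (hR : ∀ p ∈ A, ∀ q ∈ B, ww μ s (((A : Set Pt) ∪ B)ᶜ ∪ {q}) g11 p q ≤ Real.exp (-R))
    (hPQR : Real.log (A.card * B.card) + V μ s g00 0 N + k ≤ P + Q + R)
    (l10 : V μ s g00 0 N + k ≤ V μ s g10 0 N) (l01 : V μ s g00 0 N + k ≤ V μ s g01 0 N) :
    V μ s g11 0 N - V μ s g10 0 N - V μ s g01 0 N + V μ s g00 0 N ≤ Real.log 3 - k := by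
  refine nl_det A B r g00 g10 g01 g11 N hA hB h10 h01 ?_ l10 l01
  have hWS : ∀ (g : Env), ∑ y ∈ Finset.Icc (0 : ℤ) N, ww μ s Set.univ g 0 ((N : ℤ), y) = Real.exp (V μ s g 0 N) := by
    intro g
    rw [← WS_eq_exp_V]
    unfold WS W
    refine Finset.sum_congr rfl fun y _ => ?_
    rw [← ww_eq (μ := μ) (s := s) Set.univ g 0 N y]
    simp
  have h1 : ∀ p ∈ A, ww μ s Set.univ g10 0 p ≤ Real.exp (V μ s g10 0 N - P) := by
    intro p hp
    have h2 : ww μ s Set.univ g10 0 p * ∑ y ∈ Finset.Icc (0 : ℤ) N, ww μ s Set.univ g10 p ((N : ℤ), y) ≤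
        Real.exp (V μ s g10 0 N) := by
      rw [← hWS, Finset.mul_sum]
      exact Finset.sum_le_sum fun y _ => ww_mul_le _ _ _ _
    have h3 := (mul_le_mul_of_nonneg_left (hP p hp) (ww_nonneg (μ := μ) (s := s) Set.univ g10 0 p)).trans h2
    rw [Real.exp_sub, le_div_iff₀ (Real.exp_pos _)]
    exact h3
  have h4 : ∀ q ∈ B, ∑ y ∈ Finset.Icc (0 : ℤ) N, ww μ s Set.univ g01 q ((N : ℤ), y) ≤ Real.exp (V μ s g01 0 N - Q) := by
    intro q hq
    have h2 : ww μ s Set.univ g01 0 q * ∑ y ∈ Finset.Icc (0 : ℤ) N, ww μ s Set.univ g01 q ((N : ℤ), y) ≤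
        Real.exp (V μ s g01 0 N) := by
      rw [← hWS, Finset.mul_sum]
      exact Finset.sum_le_sum fun y _ => ww_mul_le _ _ _ _
    have h5 : 0 ≤ ∑ y ∈ Finset.Icc (0 : ℤ) N, ww μ s Set.univ g01 q ((N : ℤ), y) :=
      Finset.sum_nonneg fun y _ => ww_nonneg _ _ _ _
    have h3 := (mul_le_mul_of_nonneg_right (hQ q hq) h5).trans h2
    rw [Real.exp_sub, le_div_iff₀ (Real.exp_pos _), mul_comm]
    exact h3
  rcases A.eq_empty_or_nonempty with hA0 | hA0
  · rw [hA0, Finset.sum_empty]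
    exact (Real.exp_pos _).le
  rcases B.eq_empty_or_nonempty with hB0 | hB0
  · simp only [hB0, Finset.sum_empty, Finset.sum_const_zero]
    exact (Real.exp_pos _).le
  have hc : (0 : ℝ) < A.card * B.card := by
    have := hA0.card_pos
    have := hB0.card_pos
    positivity
  have h6 : ∑ p ∈ A, ∑ q ∈ B, ww μ s Set.univ g10 0 p * ww μ s (((A : Set Pt) ∪ B)ᶜ ∪ {q}) g11 p q *
      ∑ y ∈ Finset.Icc (0 : ℤ) N, ww μ s Set.univ g01 q ((N : ℤ), y) ≤
      ∑ p ∈ A, ∑ q ∈ B, Real.exp (V μ s g10 0 N - P) * Real.exp (-R) * Real.exp (V μ s g01 0 N - Q) := by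
    refine Finset.sum_le_sum fun p hp => Finset.sum_le_sum fun q hq => ?_
    exact mul_le_mul (mul_le_mul (h1 p hp) (hR p hp q hq) (ww_nonneg _ _ _ _) (Real.exp_pos _).le) (h4 q hq)
      (Finset.sum_nonneg fun y _ => ww_nonneg _ _ _ _) (by positivity)
  refine h6.trans ?_
  rw [Finset.sum_const, Finset.sum_const, nsmul_eq_mul, nsmul_eq_mul, ← mul_assoc, ← Real.exp_log hc, ← Real.exp_add,
    ← Real.exp_add, ← Real.exp_add]
  exact Real.exp_le_exp.2 (by linarith)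

end Pool.Agent.W_7d29a1_XN
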