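import Pool.Agent.W_7d29a1_XN.Touch

/-!
MP_7d29a1_pr, STORM X, section (NL), deterministic part (2): the paths which touch two sets of sites, the first one
before the row `r` and the second one after it.
-/

namespace Pool.Agent.W_7d29a1_XN

open MeasureTheory Pool.Agent.W_7d29a1_F

noncomputable section

/-- The weight from `p` to `q` splits multiplicatively (lower bound). -/
theorem zz_mul_le (η : Env) (a p b : Pt) : zz Set.univ η a p * zz Set.univ η p b ≤ zz Set.univ η a b := by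
  rcases lt_or_ge p.1 a.1 with h1 | h1
  · rw [zz_lt _ η h1, zero_mul]
    exact zz_nonneg _ _ _ _
  rcases eq_or_ne a p with rfl | h2
  · rw [zz_self, one_mul]
  rcases lt_or_eq_of_le h1 with h3 | h3
  · have h := last_touch' Set.univ {p} η (a := a) b (by
      intro q hq
      rw [Finset.mem_singleton] at hq
      rw [hq]
      exact h3)
    rw [Finset.sum_singleton] at h
    have h4 : zz (Set.univ \ (({p} : Finset Pt) : Set Pt)) η p b = zz Set.univ η p b := by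
      refine zz_congr' (fun x hx _ => ?_) (fun x _ _ _ => rfl)
      have h5 : x ≠ p := by
        intro h6
        rw [h6] at hx
        exact lt_irrefl _ hx
      simp [h5]
    rw [h4] at h
    rw [h]
    have := zz_nonneg (Set.univ \ (({p} : Finset Pt) : Set Pt)) η a b
    linarith
  · have h4 : zz Set.univ η a p = 0 := by
      rw [zz_step _ η h2, zz_lt _ η (show ((p.1 - 1, p.2) : Pt).1 < a.1 from by simp only; omega),
        zz_lt _ η (show ((p.1 - 1, p.2 - 1) : Pt).1 < a.1 from by simp only; omega), add_zero, mul_zero]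
    rw [h4, zero_mul]
    exact zz_nonneg _ _ _ _

/-- THE SPLITTING OF THE PARTITION FUNCTION with both sets in the state `1`. -/
theorem split (A B : Finset Pt) (r : ℤ) (g10 g01 g11 : Env) {a : Pt} (b : Pt)
    (hA : ∀ p ∈ A, a.1 < p.1 ∧ p.1 < r) (hB : ∀ q ∈ B, r ≤ q.1)
    (h10 : ∀ p, p ∉ B → g11 p = g10 p) (h01 : ∀ p, p ∉ A → g11 p = g01 p) :
    zz Set.univ g11 a b ≤ zz Set.univ g01 a b + zz Set.univ g10 a b +
      ∑ p ∈ A, ∑ q ∈ B, zz Set.univ g10 a p * zz (((A : Set Pt) ∪ B)ᶜ ∪ {q}) g11 p q * zz Set.univ g01 q b := by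
  classical
  have hAr : ∀ x : Pt, r ≤ x.1 → x ∉ A := fun x hx hxA => absurd (hA x hxA).2 (by omega)
  have hBr : ∀ x : Pt, x.1 < r → x ∉ B := fun x hx hxB => absurd (hB x hxB) (by omega)
  have e0 := last_touch' Set.univ A g11 (a := a) b (fun p hp => (hA p hp).1)
  have e1 : zz (Set.univ \ (A : Set Pt)) g11 a b ≤ zz Set.univ g01 a b := by
    rw [zz_congr' (R' := Set.univ \ (A : Set Pt)) (η' := g01) (fun x _ _ => Iff.rfl)
      (fun x _ _ hx => h01 x fun h => hx.2 (Finset.mem_coe.2 h))]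
    exact zz_mono Set.sdiff_subset _ _ _
  have e2 : ∀ p ∈ A, zz Set.univ g11 a p = zz Set.univ g10 a p := by
    intro p hp
    exact zz_congr' (fun x _ _ => Iff.rfl) (fun x _ hx _ => h10 x (hBr x (lt_of_le_of_lt hx (hA p hp).2)))
  have e3 : ∀ p ∈ A, zz (Set.univ \ (A : Set Pt)) g11 p b = zz ((Set.univ \ (A : Set Pt)) \ B) g11 p b +
      ∑ q ∈ B, zz ((Set.univ \ (A : Set Pt)) ∩ ((B : Set Pt)ᶜ ∪ {q})) g11 p q * zz (Set.univ \ (A : Set Pt)) g11 q b := by
    intro p hp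
    exact first_touch' _ B g11 b fun q hq => lt_of_lt_of_le (hA p hp).2 (hB q hq)
  have e4 : ∀ p ∈ A, zz ((Set.univ \ (A : Set Pt)) \ B) g11 p b ≤ zz (Set.univ \ (A : Set Pt)) g10 p b := by
    intro p hp
    rw [zz_congr' (R' := (Set.univ \ (A : Set Pt)) \ B) (η' := g10) (fun x _ _ => Iff.rfl)
      (fun x _ _ hx => h10 x fun h => hx.2 (Finset.mem_coe.2 h))]
    exact zz_mono Set.sdiff_subset _ _ _
  have e5 : ∑ p ∈ A, zz Set.univ g10 a p * zz (Set.univ \ (A : Set Pt)) g10 p b ≤ zz Set.univ g10 a b := by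
    have h := last_touch' Set.univ A g10 (a := a) b (fun p hp => (hA p hp).1)
    have := zz_nonneg (Set.univ \ (A : Set Pt)) g10 a b
    linarith
  have e6 : ∀ p ∈ A, ∀ q ∈ B, zz ((Set.univ \ (A : Set Pt)) ∩ ((B : Set Pt)ᶜ ∪ {q})) g11 p q ≤
      zz (((A : Set Pt) ∪ B)ᶜ ∪ {q}) g11 p q := by
    intro p hp q hq
    refine zz_mono ?_ _ _ _
    rintro x ⟨⟨-, hx1⟩, hx2⟩
    rcases hx2 with hx2 | hx2
    · left
      intro hx3
      rcases hx3 with hx3 | hx3
      · exact hx1 hx3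
      · exact hx2 hx3
    · exact Or.inr hx2
  have e7 : ∀ q ∈ B, zz (Set.univ \ (A : Set Pt)) g11 q b ≤ zz Set.univ g01 q b := by
    intro q hq
    rw [zz_congr' (R' := Set.univ \ (A : Set Pt)) (η' := g01) (fun x _ _ => Iff.rfl)
      (fun x _ _ hx => h01 x fun h => hx.2 (Finset.mem_coe.2 h))]
    exact zz_mono Set.sdiff_subset _ _ _
  rw [e0]
  have e8 : ∑ p ∈ A, zz Set.univ g11 a p * zz (Set.univ \ (A : Set Pt)) g11 p b ≤
      ∑ p ∈ A, (zz Set.univ g10 a p * zz (Set.univ \ (A : Set Pt)) g10 p b +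
        ∑ q ∈ B, zz Set.univ g10 a p * zz (((A : Set Pt) ∪ B)ᶜ ∪ {q}) g11 p q * zz Set.univ g01 q b) := by
    refine Finset.sum_le_sum fun p hp => ?_
    rw [e2 p hp, e3 p hp, mul_add, Finset.mul_sum]
    refine add_le_add (mul_le_mul_of_nonneg_left (e4 p hp) (zz_nonneg _ _ _ _)) (Finset.sum_le_sum fun q hq => ?_)
    rw [mul_assoc]
    exact mul_le_mul_of_nonneg_left (mul_le_mul (e6 p hp q hq) (e7 q hq) (zz_nonneg _ _ _ _) (zz_nonneg _ _ _ _))
      (zz_nonneg _ _ _ _)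
  rw [Finset.sum_add_distrib] at e8
  linarith

/-- The connection between the two sets, in the state `0` up to the weight of the last site. -/
theorem conn_eq (A B : Finset Pt) (g00 g11 : Env) {p q : Pt} (hpq : p.1 < q.1)
    (h00 : ∀ p, p ∉ A → p ∉ B → g11 p = g00 p) :
    zz (((A : Set Pt) ∪ B)ᶜ ∪ {q}) g11 p q = Real.exp (g11 q - g00 q) * zz (((A : Set Pt) ∪ B)ᶜ ∪ {q}) g00 p q := by
  have hne : p ≠ q := by
    intro h
    rw [h] at hpq
    exact lt_irrefl _ hpq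
  have hm : q ∈ ((A : Set Pt) ∪ B)ᶜ ∪ {q} := Or.inr rfl
  rw [zz_step _ g11 hne, zz_step _ g00 hne, Set.indicator_of_mem hm, Set.indicator_of_mem hm]
  have h1 : ∀ b' : Pt, b'.1 < q.1 → zz (((A : Set Pt) ∪ B)ᶜ ∪ {q}) g11 p b' = zz (((A : Set Pt) ∪ B)ᶜ ∪ {q}) g00 p b' := by
    intro b' hb'
    refine zz_congr' (fun x _ _ => Iff.rfl) (fun x _ hx hxR => ?_)
    rcases hxR with hx1 | hx1
    · exact h00 x (fun h => hx1 (Or.inl (Finset.mem_coe.2 h))) (fun h => hx1 (Or.inr (Finset.mem_coe.2 h)))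
    · rw [Set.mem_singleton_iff.1 hx1] at hx
      omega
  rw [h1 _ (by simp only; omega), h1 _ (by simp only; omega), show Real.exp (g11 q) = Real.exp (g11 q - g00 q) *
    Real.exp (g00 q) from by rw [← Real.exp_add, sub_add_cancel]]
  ring

/-! ### The normalised weights -/

variable {μ : Measure ℝ} {s : ℝ}

/-- The normalised weight from site to site. -/
def ww (μ : Measure ℝ) (s : ℝ) (R : Set Pt) (η : Env) (a b : Pt) : ℝ :=
  Real.exp (s * ((b.2 - a.2 : ℤ) : ℝ) - ((b.1 - a.1 : ℤ) : ℝ) * lam μ s) * zz R η a b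

theorem ww_nonneg (R : Set Pt) (η : Env) (a b : Pt) : 0 ≤ ww μ s R η a b :=
  mul_nonneg (Real.exp_pos _).le (zz_nonneg _ _ _ _)

/-- The weights `WR` of `W_7d29a1_F`. -/
theorem ww_eq (R : Set Pt) (η : Env) (a : Pt) (n : ℕ) (y : ℤ) : ww μ s R η a (a.1 + n, a.2 + y) = WR μ s R η a n y := by
  unfold ww zz WR
  rw [if_pos (by simp only; omega)]
  have h1 : ((a.1 + (n : ℤ), a.2 + y) : Pt).2 - a.2 = y := by simp only; omega
  have h2 : ((a.1 + (n : ℤ), a.2 + y) : Pt).1 - a.1 = n := by simp only; omega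
  rw [h1, h2]
  simp

theorem ww_eq' (R : Set Pt) (η : Env) {a b : Pt} (h : a.1 ≤ b.1) :
    ww μ s R η a b = WR μ s R η a (b.1 - a.1).toNat (b.2 - a.2) := by
  have h1 : b = (a.1 + ((b.1 - a.1).toNat : ℤ), a.2 + (b.2 - a.2)) := by
    ext
    · simp only
      omega
    · simp only
      omega
  conv_lhs => rw [h1]
  exact ww_eq R η a _ _

theorem ww_lt (R : Set Pt) (η : Env) {a b : Pt} (h : b.1 < a.1) : ww μ s R η a b = 0 := by
  unfold ww
  rw [zz_lt R η h, mul_zero]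

theorem ww_mono {R R' : Set Pt} (h : R ⊆ R') (η : Env) (a b : Pt) : ww μ s R η a b ≤ ww μ s R' η a b :=
  mul_le_mul_of_nonneg_left (zz_mono h η a b) (Real.exp_pos _).le

theorem ex_mul (a p b : Pt) : Real.exp (s * ((p.2 - a.2 : ℤ) : ℝ) - ((p.1 - a.1 : ℤ) : ℝ) * lam μ s) *
    Real.exp (s * ((b.2 - p.2 : ℤ) : ℝ) - ((b.1 - p.1 : ℤ) : ℝ) * lam μ s) =
      Real.exp (s * ((b.2 - a.2 : ℤ) : ℝ) - ((b.1 - a.1 : ℤ) : ℝ) * lam μ s) := by
  rw [← Real.exp_add]
  congr 1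
  push_cast
  ring

theorem ww_mul_le (η : Env) (a p b : Pt) : ww μ s Set.univ η a p * ww μ s Set.univ η p b ≤ ww μ s Set.univ η a b := by
  unfold ww
  rw [mul_mul_mul_comm, ex_mul]
  exact mul_le_mul_of_nonneg_left (zz_mul_le η a p b) (Real.exp_pos _).le

/-- THE SPLITTING, normalised: `g11` has both sets in the state `1`, `g10` only `A`, `g01` only `B`. -/
theorem split_ww (A B : Finset Pt) (r : ℤ) (g10 g01 g11 : Env) {a : Pt} (b : Pt)
    (hA : ∀ p ∈ A, a.1 < p.1 ∧ p.1 < r) (hB : ∀ q ∈ B, r ≤ q.1)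
    (h10 : ∀ p, p ∉ B → g11 p = g10 p) (h01 : ∀ p, p ∉ A → g11 p = g01 p) :
    ww μ s Set.univ g11 a b ≤ ww μ s Set.univ g01 a b + ww μ s Set.univ g10 a b +
      ∑ p ∈ A, ∑ q ∈ B, ww μ s Set.univ g10 a p * ww μ s (((A : Set Pt) ∪ B)ᶜ ∪ {q}) g11 p q * ww μ s Set.univ g01 q b := by
  have h := mul_le_mul_of_nonneg_left (split A B r g10 g01 g11 b hA hB h10 h01)
    (Real.exp_pos (s * ((b.2 - a.2 : ℤ) : ℝ) - ((b.1 - a.1 : ℤ) : ℝ) * lam μ s)).le
  rw [mul_add, mul_add, Finset.mul_sum] at h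
  refine h.trans (le_of_eq ?_)
  unfold ww
  congr 1
  refine Finset.sum_congr rfl fun p hp => ?_
  rw [Finset.mul_sum]
  refine Finset.sum_congr rfl fun q hq => ?_
  rw [← ex_mul a p b, ← ex_mul p q b]
  ring

/-- The same, summed over the end points. -/
theorem split_V (A B : Finset Pt) (r : ℤ) (g10 g01 g11 : Env) (N : ℕ)
    (hA : ∀ p ∈ A, 0 < p.1 ∧ p.1 < r) (hB : ∀ q ∈ B, r ≤ q.1)
    (h10 : ∀ p, p ∉ B → g11 p = g10 p) (h01 : ∀ p, p ∉ A → g11 p = g01 p) :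
    WS μ s g11 0 N (Finset.Icc (0 : ℤ) N) ≤ WS μ s g01 0 N (Finset.Icc (0 : ℤ) N) + WS μ s g10 0 N (Finset.Icc (0 : ℤ) N) +
      ∑ p ∈ A, ∑ q ∈ B, ww μ s Set.univ g10 0 p * ww μ s (((A : Set Pt) ∪ B)ᶜ ∪ {q}) g11 p q *
        ∑ y ∈ Finset.Icc (0 : ℤ) N, ww μ s Set.univ g01 q ((N : ℤ), y) := by
  have hW : ∀ (g : Env) (y : ℤ), W μ s g 0 N y = ww μ s Set.univ g 0 ((N : ℤ), y) := by
    intro g y
    have h := ww_eq (μ := μ) (s := s) Set.univ g 0 N y
    unfold W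
    rw [← h]
    simp
  unfold WS
  have h := Finset.sum_le_sum fun (y : ℤ) (_ : y ∈ Finset.Icc (0 : ℤ) N) =>
    split_ww (μ := μ) (s := s) A B r g10 g01 g11 (a := 0) ((N : ℤ), y) (fun p hp => by simpa using hA p hp) hB h10 h01
  simp only [hW]
  refine h.trans (le_of_eq ?_)
  rw [Finset.sum_add_distrib, Finset.sum_add_distrib]
  congr 1
  rw [Finset.sum_comm]
  refine Finset.sum_congr rfl fun p hp => ?_
  rw [Finset.sum_comm]
  refine Finset.sum_congr rfl fun q hq => ?_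
  rw [Finset.mul_sum]

end

end Pool.Agent.W_7d29a1_XN
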