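import Pool.Agent.W_7d29a1_F.CoreD
import Pool.Agent.W_7d29a1_h95g.Exit

/-!
MP_7d29a1_pr, STORM X, section (NL), deterministic part (1): decomposition of the point to point weights according to
the last touch of a finite set of sites and according to the first touch.
-/

namespace Pool.Agent.W_7d29a1_XN

open MeasureTheory Pool.Agent.W_7d29a1_F

noncomputable section

/-- The weight of the paths from the site `a` to the site `b` in the region `R` (the first site is not counted). -/
def zz (R : Set Pt) (η : Env) (a b : Pt) : ℝ := if a.1 ≤ b.1 then Zr R η a (b.1 - a.1).toNat (b.2 - a.2) else 0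

theorem zz_nonneg (R : Set Pt) (η : Env) (a b : Pt) : 0 ≤ zz R η a b := by
  unfold zz
  split_ifs
  · exact Zr_nonneg _ _ _ _ _
  · exact le_rfl

theorem zz_self (R : Set Pt) (η : Env) (a : Pt) : zz R η a a = 1 := by
  unfold zz
  rw [if_pos le_rfl, sub_self, sub_self]
  rfl

theorem zz_lt (R : Set Pt) (η : Env) {a b : Pt} (h : b.1 < a.1) : zz R η a b = 0 := by
  unfold zz
  rw [if_neg (by omega)]

/-- The recursion (last step). -/
theorem zz_step (R : Set Pt) (η : Env) {a b : Pt} (h : a ≠ b) :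
    zz R η a b = R.indicator (fun p => Real.exp (η p)) b * (zz R η a (b.1 - 1, b.2) + zz R η a (b.1 - 1, b.2 - 1)) := by
  rcases lt_trichotomy b.1 a.1 with h1 | h1 | h1
  · rw [zz_lt R η h1, zz_lt R η (show ((b.1 - 1, b.2) : Pt).1 < a.1 from by simp only; omega),
      zz_lt R η (show ((b.1 - 1, b.2 - 1) : Pt).1 < a.1 from by simp only; omega)]
    ring
  · rw [zz_lt R η (show ((b.1 - 1, b.2) : Pt).1 < a.1 from by simp only; omega),
      zz_lt R η (show ((b.1 - 1, b.2 - 1) : Pt).1 < a.1 from by simp only; omega)]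
    have h2 : b.2 - a.2 ≠ 0 := by
      intro h3
      exact h (Prod.ext h1.symm (by omega))
    unfold zz
    rw [if_pos (by omega), show (b.1 - a.1).toNat = 0 from by omega]
    simp [Zr, h2]
  · obtain ⟨n, hn⟩ : ∃ n : ℕ, b.1 = a.1 + (n + 1) := ⟨(b.1 - a.1 - 1).toNat, by omega⟩
    unfold zz
    rw [if_pos h1.le, if_pos (by simp only; omega), if_pos (by simp only; omega), show (b.1 - a.1).toNat = n + 1 from by omega,
      show (((b.1 - 1, b.2) : Pt).1 - a.1).toNat = n from by simp only; omega]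
    rw [Pool.Agent.W_7d29a1_h95g.Zr_succ]
    have e1 : ((a.1 + ((n : ℤ) + 1), a.2 + (b.2 - a.2)) : Pt) = b := by
      ext
      · simp only
        omega
      · simp only
        omega
    have e2 : b.2 - a.2 - 1 = ((b.1 - 1, b.2 - 1) : Pt).2 - a.2 := by
      simp only
      omega
    rw [e1, e2]

theorem zz_same (R R' : Set Pt) (η η' : Env) {a b : Pt} (h : b.1 ≤ a.1) : zz R η a b = zz R' η' a b := by
  rcases lt_or_eq_of_le h with h1 | h1
  · rw [zz_lt R η h1, zz_lt R' η' h1]
  · unfold zz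
    rw [if_pos h1.ge, if_pos h1.ge, show (b.1 - a.1).toNat = 0 from by omega]
    rfl

/-- Only the sites between the rows of `a` (excluded) and of `b` matter. -/
theorem zz_congr {R R' : Set Pt} {η η' : Env} {a : Pt} : ∀ (n : ℕ) (b : Pt), b.1 ≤ a.1 + n →
    (∀ p : Pt, a.1 < p.1 → p.1 ≤ b.1 → (p ∈ R ↔ p ∈ R')) → (∀ p : Pt, a.1 < p.1 → p.1 ≤ b.1 → p ∈ R → η p = η' p) →
    zz R η a b = zz R' η' a b := by
  intro n
  induction n with
  | zero =>
    intro b hb h1 h2
    exact zz_same _ _ _ _ (by simpa using hb)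
  | succ n ih =>
    intro b hb h1 h2
    rcases le_or_gt b.1 a.1 with h3 | h3
    · exact zz_same _ _ _ _ h3
    · have hab : a ≠ b := by
        intro h4
        rw [h4] at h3
        exact lt_irrefl _ h3
      rw [zz_step R η hab, zz_step R' η' hab]
      push_cast at hb
      rw [ih (b.1 - 1, b.2) (by simp only; omega) (fun p hp hp' => h1 p hp (by simp only at hp'; omega))
          (fun p hp hp' => h2 p hp (by simp only at hp'; omega)),
        ih (b.1 - 1, b.2 - 1) (by simp only; omega) (fun p hp hp' => h1 p hp (by simp only at hp'; omega))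
          (fun p hp hp' => h2 p hp (by simp only at hp'; omega))]
      congr 1
      by_cases hbR : b ∈ R
      · rw [Set.indicator_of_mem hbR, Set.indicator_of_mem ((h1 b h3 le_rfl).1 hbR), h2 b h3 le_rfl hbR]
      · rw [Set.indicator_of_notMem hbR, Set.indicator_of_notMem (fun h4 => hbR ((h1 b h3 le_rfl).2 h4))]

theorem zz_congr' {R R' : Set Pt} {η η' : Env} {a b : Pt} (h1 : ∀ p : Pt, a.1 < p.1 → p.1 ≤ b.1 → (p ∈ R ↔ p ∈ R'))
    (h2 : ∀ p : Pt, a.1 < p.1 → p.1 ≤ b.1 → p ∈ R → η p = η' p) : zz R η a b = zz R' η' a b :=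
  zz_congr (b.1 - a.1).toNat b (by omega) h1 h2

theorem zz_mono {R R' : Set Pt} (h : R ⊆ R') (η : Env) (a b : Pt) : zz R η a b ≤ zz R' η a b := by
  unfold zz
  split_ifs
  · exact Zr_mono h η a _ _
  · exact le_rfl

/-- LAST TOUCH. -/
theorem last_touch (R : Set Pt) (A : Finset Pt) (η : Env) {a : Pt} (hA : ∀ p ∈ A, a.1 < p.1) : ∀ (n : ℕ) (b : Pt),
    b.1 ≤ a.1 + n → zz R η a b = zz (R \ A) η a b + ∑ p ∈ A, zz R η a p * zz (R \ A) η p b := by
  classical
  intro n
  have hbase : ∀ b : Pt, b.1 ≤ a.1 → zz R η a b = zz (R \ A) η a b + ∑ p ∈ A, zz R η a p * zz (R \ A) η p b := by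
    intro b hb
    rw [Finset.sum_eq_zero fun p hp => ?_, add_zero]
    · exact zz_same _ _ _ _ hb
    · rw [zz_lt (R \ A) η (lt_of_le_of_lt hb (hA p hp)), mul_zero]
  induction n with
  | zero =>
    intro b hb
    exact hbase b (by simpa using hb)
  | succ n ih =>
    intro b hb
    rcases le_or_gt b.1 a.1 with h3 | h3
    · exact hbase b h3
    have hab : a ≠ b := by
      intro h4
      rw [h4] at h3
      exact lt_irrefl _ h3
    by_cases hbA : b ∈ A
    · have h5 : ∀ p : Pt, p ≠ b → zz (R \ A) η p b = 0 := by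
        intro p hp
        rw [zz_step _ η hp, Set.indicator_of_notMem (fun h6 => h6.2 (Finset.mem_coe.2 hbA)), zero_mul]
      rw [h5 a hab, zero_add, Finset.sum_eq_single_of_mem b hbA fun p hp hpb => by rw [h5 p hpb, mul_zero], zz_self, mul_one]
    · push_cast at hb
      have i1 := ih (b.1 - 1, b.2) (by simp only; omega)
      have i2 := ih (b.1 - 1, b.2 - 1) (by simp only; omega)
      have hind : (R \ (A : Set Pt)).indicator (fun p => Real.exp (η p)) b = R.indicator (fun p => Real.exp (η p)) b := by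
        by_cases hbR : b ∈ R
        · rw [Set.indicator_of_mem hbR, Set.indicator_of_mem
            (show b ∈ R \ (A : Set Pt) from ⟨hbR, fun h6 => hbA (Finset.mem_coe.1 h6)⟩)]
        · rw [Set.indicator_of_notMem hbR, Set.indicator_of_notMem (fun h6 => hbR h6.1)]
      rw [zz_step R η hab, i1, i2, zz_step (R \ A) η hab, hind]
      have hsum : ∑ p ∈ A, zz R η a p * zz (R \ A) η p b = R.indicator (fun p => Real.exp (η p)) b *
          (∑ p ∈ A, zz R η a p * zz (R \ A) η p (b.1 - 1, b.2) +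
            ∑ p ∈ A, zz R η a p * zz (R \ A) η p (b.1 - 1, b.2 - 1)) := by
        rw [← Finset.sum_add_distrib, Finset.mul_sum]
        refine Finset.sum_congr rfl fun p hp => ?_
        rw [zz_step (R \ A) η (fun h6 : p = b => hbA (h6 ▸ hp)), hind]
        ring
      rw [hsum]
      ring

theorem last_touch' (R : Set Pt) (A : Finset Pt) (η : Env) {a : Pt} (b : Pt) (hA : ∀ p ∈ A, a.1 < p.1) :
    zz R η a b = zz (R \ A) η a b + ∑ p ∈ A, zz R η a p * zz (R \ A) η p b :=
  last_touch R A η hA (b.1 - a.1).toNat b (by omega)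

/-- FIRST TOUCH. -/
theorem first_touch (R : Set Pt) (B : Finset Pt) (η : Env) {a : Pt} (hB : ∀ q ∈ B, a.1 < q.1) : ∀ (n : ℕ) (b : Pt),
    b.1 ≤ a.1 + n → zz R η a b = zz (R \ B) η a b + ∑ q ∈ B, zz (R ∩ ((B : Set Pt)ᶜ ∪ {q})) η a q * zz R η q b := by
  classical
  intro n
  have hbase : ∀ b : Pt, b.1 ≤ a.1 → zz R η a b = zz (R \ B) η a b +
      ∑ q ∈ B, zz (R ∩ ((B : Set Pt)ᶜ ∪ {q})) η a q * zz R η q b := by
    intro b hb
    rw [Finset.sum_eq_zero fun p hp => ?_, add_zero]
    · exact zz_same _ _ _ _ hb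
    · rw [zz_lt R η (lt_of_le_of_lt hb (hB p hp)), mul_zero]
  induction n with
  | zero =>
    intro b hb
    exact hbase b (by simpa using hb)
  | succ n ih =>
    intro b hb
    rcases le_or_gt b.1 a.1 with h3 | h3
    · exact hbase b h3
    have hab : a ≠ b := by
      intro h4
      rw [h4] at h3
      exact lt_irrefl _ h3
    push_cast at hb
    have i1 := ih (b.1 - 1, b.2) (by simp only; omega)
    have i2 := ih (b.1 - 1, b.2 - 1) (by simp only; omega)
    by_cases hbB : b ∈ B
    · have hz : zz (R \ B) η a b = 0 := by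
        rw [zz_step _ η hab, Set.indicator_of_notMem (fun h6 => h6.2 (Finset.mem_coe.2 hbB)), zero_mul]
      have e1 : ∀ b' : Pt, b'.1 < b.1 → zz (R ∩ ((B : Set Pt)ᶜ ∪ {b})) η a b' = zz (R \ B) η a b' := by
        intro b' hb'
        refine zz_congr' (fun p _ hp => ?_) (fun p _ _ _ => rfl)
        have hpb : p ≠ b := by
          intro h6
          rw [h6] at hp
          omega
        simp only [Set.mem_inter_iff, Set.mem_union, Set.mem_compl_iff, Set.mem_singleton_iff, hpb, or_false, Set.mem_sdiff]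
      have hind : (R ∩ ((B : Set Pt)ᶜ ∪ {b})).indicator (fun p => Real.exp (η p)) b =
          R.indicator (fun p => Real.exp (η p)) b := by
        by_cases hbR : b ∈ R
        · rw [Set.indicator_of_mem hbR, Set.indicator_of_mem
            (show b ∈ R ∩ ((B : Set Pt)ᶜ ∪ {b}) from ⟨hbR, Or.inr rfl⟩)]
        · rw [Set.indicator_of_notMem hbR, Set.indicator_of_notMem (fun h6 => hbR h6.1)]
      have hlast : zz (R ∩ ((B : Set Pt)ᶜ ∪ {b})) η a b = R.indicator (fun p => Real.exp (η p)) b *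
          (zz (R \ B) η a (b.1 - 1, b.2) + zz (R \ B) η a (b.1 - 1, b.2 - 1)) := by
        rw [zz_step _ η hab, hind, e1 _ (by simp only; omega), e1 _ (by simp only; omega)]
      have hsum : ∑ q ∈ B, zz (R ∩ ((B : Set Pt)ᶜ ∪ {q})) η a q * zz R η q b =
          zz (R ∩ ((B : Set Pt)ᶜ ∪ {b})) η a b + R.indicator (fun p => Real.exp (η p)) b *
          (∑ q ∈ B, zz (R ∩ ((B : Set Pt)ᶜ ∪ {q})) η a q * zz R η q (b.1 - 1, b.2) +
            ∑ q ∈ B, zz (R ∩ ((B : Set Pt)ᶜ ∪ {q})) η a q * zz R η q (b.1 - 1, b.2 - 1)) := by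
        rw [← Finset.sum_add_distrib, Finset.mul_sum, ← Finset.add_sum_erase B _ hbB, ← Finset.add_sum_erase B (fun q =>
          R.indicator (fun p => Real.exp (η p)) b * (zz (R ∩ ((B : Set Pt)ᶜ ∪ {q})) η a q * zz R η q (b.1 - 1, b.2) +
            zz (R ∩ ((B : Set Pt)ᶜ ∪ {q})) η a q * zz R η q (b.1 - 1, b.2 - 1))) hbB]
        rw [zz_self, mul_one, zz_lt R η (show ((b.1 - 1, b.2) : Pt).1 < b.1 from by simp only; omega),
          zz_lt R η (show ((b.1 - 1, b.2 - 1) : Pt).1 < b.1 from by simp only; omega), mul_zero, add_zero, mul_zero, zero_add]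
        congr 1
        refine Finset.sum_congr rfl fun q hq => ?_
        rw [zz_step R η (Finset.ne_of_mem_erase hq)]
        ring
      rw [hz, hsum, hlast, zz_step R η hab, i1, i2]
      ring
    · have hind : (R \ (B : Set Pt)).indicator (fun p => Real.exp (η p)) b = R.indicator (fun p => Real.exp (η p)) b := by
        by_cases hbR : b ∈ R
        · rw [Set.indicator_of_mem hbR, Set.indicator_of_mem
            (show b ∈ R \ (B : Set Pt) from ⟨hbR, fun h6 => hbB (Finset.mem_coe.1 h6)⟩)]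
        · rw [Set.indicator_of_notMem hbR, Set.indicator_of_notMem (fun h6 => hbR h6.1)]
      have hsum : ∑ q ∈ B, zz (R ∩ ((B : Set Pt)ᶜ ∪ {q})) η a q * zz R η q b =
          R.indicator (fun p => Real.exp (η p)) b *
          (∑ q ∈ B, zz (R ∩ ((B : Set Pt)ᶜ ∪ {q})) η a q * zz R η q (b.1 - 1, b.2) +
            ∑ q ∈ B, zz (R ∩ ((B : Set Pt)ᶜ ∪ {q})) η a q * zz R η q (b.1 - 1, b.2 - 1)) := by
        rw [← Finset.sum_add_distrib, Finset.mul_sum]
        refine Finset.sum_congr rfl fun q hq => ?_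
        rw [zz_step R η (fun h6 : q = b => hbB (h6 ▸ hq))]
        ring
      rw [hsum, zz_step R η hab, i1, i2, zz_step (R \ B) η hab, hind]
      ring

theorem first_touch' (R : Set Pt) (B : Finset Pt) (η : Env) {a : Pt} (b : Pt) (hB : ∀ q ∈ B, a.1 < q.1) :
    zz R η a b = zz (R \ B) η a b + ∑ q ∈ B, zz (R ∩ ((B : Set Pt)ᶜ ∪ {q})) η a q * zz R η q b :=
  first_touch R B η hB (b.1 - a.1).toNat b (by omega)

end

end Pool.Agent.W_7d29a1_XN
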